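import Pool.Agent.Helper52.ES.Gen

set_option autoImplicit false

/-! # (GU2) Hamiltonian cycles are closed orders -/

namespace Pool.Agent.Helper63.ES

open Pool.Agent.Helper52.ES SimpleGraph

theorem rot_val {n : ℕ} (i : Fin n) : ((finRotate n i : Fin n) : ℕ) = (i + 1) % n := by
  obtain ⟨m, rfl⟩ : ∃ m, n = m + 1 := ⟨n - 1, by have := i.2; omega⟩
  rw [finRotate_apply, Fin.val_add, Fin.val_one']
  rw [Nat.add_mod_mod]

/-- the graph of a symmetric irreflexive relation -/
def GE {α : Type} {n : ℕ} (f : Fin n → α) (E : α → α → Prop) (hs : ∀ a b, E a b → E b a)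
    (hn : ∀ a b, E a b → a ≠ b) : SimpleGraph (Fin n) where
  Adj i j := E (f i) (f j)
  symm := ⟨fun _ _ h => hs _ _ h⟩
  loopless := ⟨fun _ h => hn _ _ h rfl⟩

theorem gu2 : specGU2 := by
  intro α n f E hn0 hf hE
  classical
  set Γ := GE f E hE.symm hE.ne with hΓ
  have hadj : ∀ i j, Γ.Adj i j ↔ E (f i) (f j) := fun i j => Iff.rfl
  have hV : ∀ a b, E a b → ∃ i j, f i = a ∧ f j = b := by
    intro a b h
    obtain ⟨i, hi⟩ := hE.mem a b h
    obtain ⟨j, hj⟩ := hE.mem b a (hE.symm a b h)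
    exact ⟨i, j, hi, hj⟩
  have hdeg : ∀ i, (Γ.neighborSet i).ncard = 2 := by
    intro i
    obtain ⟨b, c, hbc, h⟩ := hE.two (f i) ⟨i, rfl⟩
    obtain ⟨-, j, -, hj⟩ := hV (f i) b ((h b).mpr (Or.inl rfl))
    obtain ⟨-, k, -, hk⟩ := hV (f i) c ((h c).mpr (Or.inr rfl))
    rw [Set.ncard_eq_two]
    refine ⟨j, k, fun e => hbc (by rw [← hj, ← hk, e]), ?_⟩
    ext l
    rw [SimpleGraph.mem_neighborSet, hadj, h, ← hj, ← hk, hf.eq_iff, hf.eq_iff]
    simp
  have hcyc : Γ.IsCycles := fun a _ => hdeg a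
  set i0 : Fin n := ⟨0, hn0⟩ with hi0
  have hreach : ∀ i, Γ.Reachable i0 i := by
    intro i
    obtain ⟨j, hj, hr⟩ := hE.conn (fun a => ∃ j, f j = a ∧ Γ.Reachable i0 j) (by
      rintro a b hab ⟨j, rfl, hr⟩
      obtain ⟨-, k, -, hk⟩ := hV _ b hab
      refine ⟨k, hk, hr.trans ?_⟩
      have hA : Γ.Adj j k := by rw [hadj, hk]; exact hab
      exact hA.reachable) (f i0) (f i) ⟨i0, rfl⟩ ⟨i, rfl⟩ ⟨i0, rfl, Reachable.refl _⟩
    rwa [hf hj] at hr
  obtain ⟨p, hp, hpv⟩ := hcyc.exists_cycle_toSubgraph_verts_eq_connectedComponentSupp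
    (v := i0) (c := Γ.connectedComponentMk i0) (by simp)
    (Set.nonempty_of_ncard_ne_zero (by rw [hdeg]; norm_num))
  have hall : ∀ b, b ∈ p.support := by
    intro b
    rw [← Walk.mem_verts_toSubgraph, hpv, ConnectedComponent.mem_supp_iff,
      ConnectedComponent.eq]
    exact (hreach b).symm
  have h3 := hp.three_le_length
  have hsub : ∀ a b, p.toSubgraph.Adj a b ↔ Γ.Adj a b := by
    intro a b
    have h1 : p.toSubgraph.neighborSet a = Γ.neighborSet a := by
      refine Set.eq_of_subset_of_ncard_le (p.toSubgraph.neighborSet_subset a) ?_ (Set.toFinite _)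
      rw [hdeg, hp.ncard_neighborSet_toSubgraph_eq_two (hall a)]
    exact Set.ext_iff.mp h1 b
  have hg : p.getVert p.length = p.getVert 0 := by simp
  -- the order of the vertices
  have hinj : Function.Injective fun k : Fin p.length => p.getVert k := by
    intro k l hkl
    exact Fin.ext (hp.getVert_injOn' (by simp only [Set.mem_ofPred_eq]; omega)
      (by simp only [Set.mem_ofPred_eq]; omega) hkl)
  have hsurj : Function.Surjective fun k : Fin p.length => p.getVert k := by
    intro b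
    obtain ⟨k, hk, hkn⟩ := Walk.mem_support_iff_exists_getVert.mp (hall b)
    rcases Nat.lt_or_ge k p.length with h1 | h1
    · exact ⟨⟨k, h1⟩, hk⟩
    · have h2 : k = p.length := by omega
      refine ⟨⟨0, by omega⟩, ?_⟩
      change p.getVert 0 = b
      rw [← hg, ← h2]
      exact hk
  have hlen : p.length = n := by
    have := Fintype.card_of_bijective ⟨hinj, hsurj⟩
    simpa using this
  refine ⟨by omega, ?_⟩
  have hinj' : Function.Injective fun k : Fin n => p.getVert k := by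
    intro k l hkl
    have := @hinj ⟨k, by omega⟩ ⟨l, by omega⟩ hkl
    simp only [Fin.mk.injEq] at this
    exact Fin.ext this
  have hbij : Function.Bijective fun k : Fin n => p.getVert k :=
    Finite.injective_iff_bijective.mp hinj'
  refine ⟨Equiv.ofBijective _ hbij, ?_⟩
  have hσ : ∀ k : Fin n, Equiv.ofBijective _ hbij k = p.getVert k := fun k => rfl
  have hrot : ∀ k : Fin n, Equiv.ofBijective _ hbij (finRotate n k) = p.getVert (k + 1) := by
    intro k
    rw [hσ, rot_val]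
    rcases Nat.lt_or_ge (k + 1) n with h1 | h1
    · rw [Nat.mod_eq_of_lt h1]
    · have h2 : (k : ℕ) + 1 = n := by have := k.2; omega
      rw [h2, Nat.mod_self, ← hg, hlen]
  intro a b
  constructor
  · intro h
    obtain ⟨i, j, rfl, rfl⟩ := hV a b h
    have hA : p.toSubgraph.Adj i j := (hsub i j).mpr h
    rw [Walk.toSubgraph_adj_iff] at hA
    obtain ⟨k, e, hk⟩ := hA
    refine ⟨⟨k, by omega⟩, ?_⟩
    beta_reduce
    rw [hrot, hσ]
    rw [Sym2.eq_iff] at e
    rcases e with ⟨e1, e2⟩ | ⟨e1, e2⟩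
    · exact Or.inl ⟨congrArg f e1, congrArg f e2⟩
    · exact Or.inr ⟨congrArg f e1, congrArg f e2⟩
  · rintro ⟨k, hk⟩
    beta_reduce at hk
    rw [hrot, hσ] at hk
    have hA : p.toSubgraph.Adj (p.getVert k) (p.getVert (k + 1)) := by
      rw [Walk.toSubgraph_adj_iff]
      exact ⟨k, rfl, by have := k.2; omega⟩
    rw [hsub, hadj] at hA
    rcases hk with ⟨h1, h2⟩ | ⟨h1, h2⟩
    · rw [← h1, ← h2]
      exact hA
    · rw [← h1, ← h2]
      exact hE.symm _ _ hA

end Pool.Agent.Helper63.ES
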