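import Pool.Agent.Helper52.ES.Spec2

set_option autoImplicit false

/-! # (MEM1) EXACT EUCLIDEAN TSP is a selection problem -/

namespace Pool.Agent.Helper63.ES

open Pool.Agent.Helper52.ES
open Pool.Agent.Helper52.ETSP (nrm Instance)

theorem m_rot {n : ℕ} (i : Fin n) : ((finRotate n i : Fin n) : ℕ) = (i + 1) % n := by
  obtain ⟨m, rfl⟩ : ∃ m, n = m + 1 := ⟨n - 1, by have := i.2; omega⟩
  rw [finRotate_apply, Fin.val_add, Fin.val_one']
  rw [Nat.add_mod_mod]

theorem m_sel (l : List (ℕ × ℕ)) : ∀ w : List Bool, sel l w =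
    ∑ i ∈ Finset.range l.length, (if w.getD i false = true then nrm (l.getD i (0, 0)) else 0) := by
  induction l with
  | nil => intro w; simp [sel]
  | cons v l ih =>
    intro w
    rw [List.length_cons, Finset.sum_range_succ']
    cases w with
    | nil => simp [sel]
    | cons b w =>
      have h1 : sel (v :: l) (b :: w) = (if b = true then nrm v else 0) + sel l w := by
        simp [sel]
      rw [h1, ih w, add_comm]
      rfl

theorem m_sum (n : ℕ) (F : ℕ → ℝ) : ∀ k : ℕ, ∑ i ∈ Finset.range (k * n), F i =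
    ∑ a ∈ Finset.range k, ∑ b ∈ Finset.range n, F (a * n + b) := by
  intro k
  induction k with
  | zero => simp
  | succ k ih =>
    rw [Nat.succ_mul, Finset.sum_range_add, ih, Finset.sum_range_succ]

theorem m_flat {β γ : Type} (n : ℕ) (g : β → List γ) (hg : ∀ x, (g x).length = n) (d : γ) :
    ∀ (L : List β) (a b : ℕ) (x0 : β), a < L.length → b < n →
      (L.flatMap g).getD (a * n + b) d = (g (L.getD a x0)).getD b d := by
  intro L
  induction L with
  | nil => intro a b x0 ha; simp at ha
  | cons x L ih =>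
    intro a b x0 ha hb
    rw [List.flatMap_cons]
    cases a with
    | zero =>
      rw [Nat.zero_mul, Nat.zero_add, List.getD_append _ _ _ _ (by rw [hg]; exact hb)]
      rfl
    | succ a =>
      have e : (a + 1) * n + b = n + (a * n + b) := by ring
      rw [e, List.getD_append_right _ _ _ _ (by rw [hg]; omega), hg, Nat.add_sub_cancel_left]
      rw [ih a b x0 (by simpa using ha) hb]
      rfl

theorem m_flat_len {β γ : Type} (n : ℕ) (g : β → List γ) (hg : ∀ x, (g x).length = n)
    (L : List β) : (L.flatMap g).length = L.length * n := by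
  induction L with
  | nil => simp
  | cons x L ih =>
    rw [List.flatMap_cons, List.length_append, ih, hg, List.length_cons]
    ring

theorem m_len (I : Instance) : (vecT I).length = I.n * I.n + I.n * I.n := by
  unfold vecT
  rw [List.length_append, m_flat_len I.n _ (fun x => by simp), List.length_ofFn,
    List.length_replicate]

theorem m_nrm (p q : ℤ × ℤ) : nrm ((p.1 - q.1).natAbs, (p.2 - q.2).natAbs) =
    Pool.Agent.Helper52.ETSP.edist p q := by
  unfold nrm Pool.Agent.Helper52.ETSP.edist
  simp only [Nat.cast_natAbs, Int.cast_abs, sq_abs]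

/-- the length as a double sum -/
theorem m_double (I : Instance) (w : List Bool) : sel (vecT I) w =
    ∑ a : Fin I.n, ∑ b : Fin I.n, (if eT I.n w a b = true then
      Pool.Agent.Helper52.ETSP.edist (I.pt a) (I.pt b) else 0) := by
  rw [m_sel, m_len, Finset.sum_range_add, m_sum, Finset.sum_range]
  have h2 : ∑ x ∈ Finset.range (I.n * I.n), (if w.getD (I.n * I.n + x) false = true then
      nrm ((vecT I).getD (I.n * I.n + x) (0, 0)) else 0) = 0 := by
    apply Finset.sum_eq_zero
    intro x hx
    rw [Finset.mem_range] at hx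
    have h3 : (vecT I).getD (I.n * I.n + x) (0, 0) = (0, 0) := by
      have hlen : ((List.ofFn I.pt).flatMap fun p => (List.ofFn I.pt).map fun q =>
          ((p.1 - q.1).natAbs, (p.2 - q.2).natAbs)).length = I.n * I.n := by
        rw [m_flat_len I.n _ (fun x => by simp), List.length_ofFn]
      unfold vecT
      rw [List.getD_append_right _ _ _ _ (by rw [hlen]; omega), hlen, Nat.add_sub_cancel_left,
        List.getD_replicate]
      exact hx
    rw [h3]
    have h4 : nrm (0, 0) = 0 := by simp [nrm]
    rw [h4]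
    simp
  rw [h2, add_zero]
  apply Finset.sum_congr rfl
  intro a _
  rw [Finset.sum_range]
  apply Finset.sum_congr rfl
  intro b _
  unfold eT
  have h3 : (vecT I).getD ((a : ℕ) * I.n + b) (0, 0) =
      (((I.pt a).1 - (I.pt b).1).natAbs, ((I.pt a).2 - (I.pt b).2).natAbs) := by
    have hlen : ((List.ofFn I.pt).flatMap fun p => (List.ofFn I.pt).map fun q =>
          ((p.1 - q.1).natAbs, (p.2 - q.2).natAbs)).length = I.n * I.n := by
      rw [m_flat_len I.n _ (fun x => by simp), List.length_ofFn]
    have hlt : (a : ℕ) * I.n + b < I.n * I.n := by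
      have ha := a.2
      have hb := b.2
      calc (a : ℕ) * I.n + b < a * I.n + I.n := by omega
        _ = (a + 1) * I.n := by ring
        _ ≤ I.n * I.n := Nat.mul_le_mul_right _ ha
    unfold vecT
    rw [List.getD_append _ _ _ _ (by rw [hlen]; exact hlt),
      m_flat I.n _ (fun x => by simp) (0, 0) _ a b (0, 0) (by simp) b.2]
    have e1 : (List.ofFn I.pt).getD a (0, 0) = I.pt a := by
      rw [List.getD_eq_getElem _ _ (by simp), List.getElem_ofFn]
    rw [e1, List.getD_eq_getElem _ _ (by simp), List.getElem_map, List.getElem_ofFn]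
  rw [h3, m_nrm]

/-- the condition on the first block -/
def EC (n : ℕ) (w : List Bool) : Prop := ∀ t < n, ∀ b < n, eT n w t b =
  (List.range n).any (fun u => pT n w u t && pT n w ((u + 1) % n) b)

theorem m_core (I : Instance) (w : List Bool) (σ : Equiv.Perm (Fin I.n))
    (hP : ∀ t a : Fin I.n, pT I.n w t a = true ↔ σ t = a) (hE : EC I.n w) :
    sel (vecT I) w = I.len σ := by
  rw [m_double]
  unfold Instance.len
  have hE' : ∀ a b : Fin I.n, eT I.n w a b = true ↔ σ (finRotate I.n (σ.symm a)) = b := by
    intro a b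
    rw [hE a a.2 b b.2, List.any_eq_true]
    constructor
    · rintro ⟨u, hu, h⟩
      rw [List.mem_range] at hu
      rw [Bool.and_eq_true] at h
      have h1 : σ ⟨u, hu⟩ = a := (hP ⟨u, hu⟩ a).mp h.1
      have h2 : σ (finRotate I.n ⟨u, hu⟩) = b := by
        rw [← hP, m_rot]
        exact h.2
      rw [← h1, Equiv.symm_apply_apply]
      exact h2
    · intro h
      refine ⟨(σ.symm a : Fin I.n), List.mem_range.mpr (σ.symm a).2, ?_⟩
      rw [Bool.and_eq_true]
      constructor
      · rw [hP]
        exact Equiv.apply_symm_apply _ _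
      · rw [← m_rot, hP]
        exact h
  rw [← Equiv.sum_comp σ]
  apply Finset.sum_congr rfl
  intro t _
  rw [Finset.sum_eq_single (σ (finRotate I.n t))]
  · rw [if_pos]
    rw [hE', Equiv.symm_apply_apply]
  · intro b _ hb
    rw [if_neg]
    rw [hE', Equiv.symm_apply_apply]
    exact fun h => hb h.symm
  · intro h
    exact absurd (Finset.mem_univ _) h

theorem m_one (n : ℕ) (P : ℕ → Bool) : ((List.range n).filter P).length = 1 ↔
    ∃ a < n, P a = true ∧ ∀ b < n, P b = true → b = a := by
  have h0 : ((List.range n).filter P).length = ((Finset.range n).filter fun a => P a = true).card := by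
    have hnd : ((List.range n).filter P).Nodup := List.nodup_range.filter _
    rw [← List.toFinset_card_of_nodup hnd]
    congr 1
    ext a
    simp
  rw [h0, Finset.card_eq_one]
  constructor
  · rintro ⟨a, ha⟩
    have h1 : a ∈ (Finset.range n).filter fun a => P a = true := by rw [ha]; simp
    rw [Finset.mem_filter, Finset.mem_range] at h1
    refine ⟨a, h1.1, h1.2, fun b hb hPb => ?_⟩
    have h2 : b ∈ (Finset.range n).filter fun a => P a = true := by
      rw [Finset.mem_filter, Finset.mem_range]; exact ⟨hb, hPb⟩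
    rw [ha, Finset.mem_singleton] at h2
    exact h2
  · rintro ⟨a, ha, hPa, hu⟩
    refine ⟨a, ?_⟩
    ext b
    rw [Finset.mem_filter, Finset.mem_range, Finset.mem_singleton]
    constructor
    · rintro ⟨hb, hPb⟩
      exact hu b hb hPb
    · rintro rfl
      exact ⟨ha, hPa⟩

theorem m_ver (I : Instance) (w : List Bool) : verT (I, w) = true ↔
    (∀ t < I.n, ∃ a < I.n, pT I.n w t a = true ∧ ∀ b < I.n, pT I.n w t b = true → b = a) ∧
    (∀ t < I.n, ∃ a < I.n, pT I.n w a t = true ∧ ∀ b < I.n, pT I.n w b t = true → b = a) ∧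
    EC I.n w := by
  unfold verT EC
  rw [List.all_eq_true]
  simp only [List.mem_range, Bool.and_eq_true, decide_eq_true_eq, List.all_eq_true, beq_iff_eq,
    m_one]
  constructor
  · intro h
    exact ⟨fun t ht => (h t ht).1.1, fun t ht => (h t ht).1.2, fun t ht => (h t ht).2⟩
  · rintro ⟨h1, h2, h3⟩ t ht
    exact ⟨⟨h1 t ht, h2 t ht⟩, h3 t ht⟩

/-- the certificate with the given second block -/
def cert (n : ℕ) (P : ℕ → ℕ → Bool) : List Bool :=
  ((List.range (n * n)).map fun i =>
    (List.range n).any (fun u => P u (i / n) && P ((u + 1) % n) (i % n))) ++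
  (List.range (n * n)).map fun i => P (i / n) (i % n)

theorem cert_len (n : ℕ) (P : ℕ → ℕ → Bool) : (cert n P).length = n * n + n * n := by
  simp [cert]

theorem m_idx {n a b : ℕ} (ha : a < n) (hb : b < n) : a * n + b < n * n := by
  calc (a : ℕ) * n + b < a * n + n := by omega
    _ = (a + 1) * n := by ring
    _ ≤ n * n := Nat.mul_le_mul_right _ ha

theorem m_div {n a b : ℕ} (hb : b < n) : (a * n + b) / n = a := by
  rw [mul_comm, Nat.mul_add_div (by omega), Nat.div_eq_of_lt hb, add_zero]

theorem m_mod {n a b : ℕ} (hb : b < n) : (a * n + b) % n = b := by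
  rw [mul_comm, Nat.mul_add_mod, Nat.mod_eq_of_lt hb]

theorem cert_p (n : ℕ) (P : ℕ → ℕ → Bool) (t a : ℕ) (ht : t < n) (ha : a < n) :
    pT n (cert n P) t a = P t a := by
  unfold pT cert
  rw [List.getD_append_right _ _ _ _ (by simp), List.length_map, List.length_range,
    Nat.add_sub_cancel_left, List.getD_eq_getElem _ _ (by simpa using m_idx ht ha),
    List.getElem_map, List.getElem_range, m_div ha, m_mod ha]

theorem cert_e (n : ℕ) (P : ℕ → ℕ → Bool) (a b : ℕ) (ha : a < n) (hb : b < n) :
    eT n (cert n P) a b = (List.range n).any (fun u => P u a && P ((u + 1) % n) b) := by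
  unfold eT cert
  rw [List.getD_append _ _ _ _ (by simpa using m_idx ha hb),
    List.getD_eq_getElem _ _ (by simpa using m_idx ha hb),
    List.getElem_map, List.getElem_range, m_div hb, m_mod hb]

theorem mem1 : specMEM1 := by
  intro I
  constructor
  · rintro ⟨σ, hσ⟩
    classical
    set P : ℕ → ℕ → Bool := fun t a => decide (∃ (ht : t < I.n) (ha : a < I.n),
      σ ⟨t, ht⟩ = ⟨a, ha⟩) with hP
    have hPt : ∀ t a : Fin I.n, P t a = true ↔ σ t = a := by
      intro t a
      rw [hP]
      simp only [decide_eq_true_eq]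
      constructor
      · rintro ⟨ht, ha, h⟩
        exact h
      · intro h
        exact ⟨t.2, a.2, h⟩
    have hp : ∀ t a : Fin I.n, pT I.n (cert I.n P) t a = true ↔ σ t = a := by
      intro t a
      rw [cert_p _ _ _ _ t.2 a.2]
      exact hPt t a
    have hEC : EC I.n (cert I.n P) := by
      intro t ht b hb
      rw [cert_e _ _ _ _ ht hb]
      have hn : 0 < I.n := by omega
      rw [Bool.eq_iff_iff, List.any_eq_true, List.any_eq_true]
      constructor
      · rintro ⟨u, hu, h⟩
        rw [List.mem_range] at hu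
        refine ⟨u, List.mem_range.mpr hu, ?_⟩
        rw [cert_p _ _ _ _ hu ht, cert_p _ _ _ _ (Nat.mod_lt _ hn) hb]
        exact h
      · rintro ⟨u, hu, h⟩
        rw [List.mem_range] at hu
        refine ⟨u, List.mem_range.mpr hu, ?_⟩
        rw [cert_p _ _ _ _ hu ht, cert_p _ _ _ _ (Nat.mod_lt _ hn) hb] at h
        exact h
    refine ⟨cert I.n P, by rw [cert_len, m_len], ?_, ?_⟩
    · rw [m_ver]
      refine ⟨fun t ht => ?_, fun t ht => ?_, hEC⟩
      · refine ⟨(σ ⟨t, ht⟩ : Fin I.n), (σ ⟨t, ht⟩).2, (hp ⟨t, ht⟩ _).mpr rfl, fun b hb h => ?_⟩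
        have := (hp ⟨t, ht⟩ ⟨b, hb⟩).mp h
        rw [this]
      · refine ⟨(σ.symm ⟨t, ht⟩ : Fin I.n), (σ.symm ⟨t, ht⟩).2, ?_, fun b hb h => ?_⟩
        · have := (hp (σ.symm ⟨t, ht⟩) ⟨t, ht⟩).mpr (Equiv.apply_symm_apply _ _)
          exact this
        · have := (hp ⟨b, hb⟩ ⟨t, ht⟩).mp h
          rw [← this, Equiv.symm_apply_apply]
    · rw [m_core I _ σ hp hEC]
      exact hσ
  · rintro ⟨w, -, hw, hs⟩
    rw [m_ver] at hw
    obtain ⟨h1, h2, h3⟩ := hw
    choose A hA1 hA2 hA3 using h1
    have hinj : Function.Injective fun t : Fin I.n => (⟨A t t.2, hA1 t t.2⟩ : Fin I.n) := by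
      intro t t' h
      have h4 : A t t.2 = A t' t'.2 := congrArg Fin.val h
      obtain ⟨c, -, -, hc⟩ := h2 (A t t.2) (hA1 t t.2)
      have e1 := hc t t.2 (hA2 t t.2)
      have e2 := hc t' t'.2 (by rw [h4]; exact hA2 t' t'.2)
      exact Fin.ext (by rw [e1, e2])
    have hbij := Finite.injective_iff_bijective.mp hinj
    refine ⟨Equiv.ofBijective _ hbij, ?_⟩
    rw [← m_core I w (Equiv.ofBijective _ hbij) ?_ h3]
    · exact hs
    · intro t a
      constructor
      · intro h
        have := hA3 t t.2 a a.2 h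
        exact Fin.ext this.symm
      · intro h
        have h5 : A t t.2 = a := congrArg Fin.val h
        rw [← h5]
        exact hA2 t t.2

end Pool.Agent.Helper63.ES
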